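import Pool.Agent.MWGR.DefsC
import Pool.Agent.MWZ.Defs

/-!
# The isoterm world, region (ii'): the system which replaces h2 for arbitrary period (definitions)

Block MWGI of the full answer to MP_23468a_al.  `xyx` is an isoterm; every letter is simple, or it is
light of degree two (`LL2`: one occurrence in each of two blocks), or all its non-zero entries may be
assumed to be `≥ 2` (heavy).  Two letters with another common block commute; two heavy letters
commute; a light letter `1` and a heavy letter `0` with one common block have the states all `0`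
before, all `0` behind, or a label mod `n`.
-/

namespace Pool.Agent.MWGI

open Pool.Agent.Helper14_MV Pool.Agent.Helper2_MV Pool.Agent.MVO Pool.Agent.MWL Pool.Agent.MWS
  Pool.Agent.MWH

export Pool.Agent.MWGR (X It FE Wd cb GG opn outL real Pre O0 rp)

/-! ### the system -/

/-- the mirror image of `FE` (written with the earlier factor `a w b`) -/
def FE' (n c : ℕ) (S : List ℕ → List ℕ → Prop) : Prop :=
  ∀ (p q w r : List ℕ) (x a b : ℕ), x ≠ a → x ≠ b → a ≠ b →
    MVO.Sys.Mul w (r ++ a :: (w ++ b :: (q ++ (List.replicate n x ++ a :: (List.replicate (n + c) x ++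
      b :: (List.replicate n x ++ p)))))) →
    S (r ++ a :: (w ++ b :: (q ++ (List.replicate n x ++ a :: (List.replicate (n + c) x ++
        b :: (List.replicate n x ++ p))))))
      (r ++ a :: (w ++ b :: (q ++ (List.replicate (n + c) x ++ b :: (List.replicate
        (n + (n - 1) * c) x ++ a :: (List.replicate (n + c) x ++ p))))))

/-- the literal system: `x²tx ≈ x²tx^(n+1)`, `x²y² ≈ y²x²`, `xtxsx ≈ x^(n+1)tx^(n+1)sx^(n+1)`, I1, the
insertion of `x^n` between two occurrences, FE and its mirror image -/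
def SysH2 (n : ℕ) (S : List ℕ → List ℕ → Prop) : Prop :=
  MWZ.R n S ∧ MWZ.R0 S ∧ MWZ.L n S ∧ MWZ.I1 n S ∧ It n S ∧ FE n 1 S ∧ FE' n 1 S

/-- the base used in the proofs -/
structure BI (n : ℕ) (S : List ℕ → List ℕ → Prop) : Prop where
  pos : 1 ≤ n
  per : MWZ.Per n S
  r : MWZ.R n S
  hh : MWZ.R0 S
  rn : MWGP.Rn n S
  l : MWZ.L n S
  it : It n S
  f : MVO.Sys.F S
  f' : MVO.Sys.F' S
  fe : FE n 1 S
  fe' : FE' n 1 S

/-! ### one block -/

/-- a block `l` between `pre` and `suf`: the letters of `H` are heavy, the other letters are light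
(once in the block, and an occurrence in `pre` or in `suf`); `k` is the number of the separators
`2, .., k + 1`, all other letters of the word are multiple -/
structure Ok1 (k : ℕ) (H pre suf l : List ℕ) : Prop where
  nd : H.Nodup
  hv : ∀ x ∈ H, 2 ≤ l.count x
  lt : ∀ a ∈ l, a ∉ H → l.count a = 1 ∧ NS k a ∧ (a ∈ pre ∨ a ∈ suf)
  mu : ∀ z ∈ pre ++ suf, NS k z → 2 ≤ (pre ++ (l ++ suf)).count z

theorem Ok1.muOf {k : ℕ} {H pre suf l l' : List ℕ} (h : Ok1 k H pre suf l)
    (h1 : ∀ x ∈ H, 2 ≤ l'.count x) (h2 : ∀ a, a ∉ H → l'.count a = l.count a) :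
    ∀ z ∈ pre ++ suf, NS k z → 2 ≤ (pre ++ (l' ++ suf)).count z := by
  intro z hz hN
  rw [List.count_append, List.count_append]
  by_cases hH : z ∈ H
  · have := h1 z hH
    omega
  · have h3 := h.mu z hz hN
    rw [List.count_append, List.count_append] at h3
    rw [h2 z hH]
    exact h3

/-- admissible token lists -/
structure Tk (k : ℕ) (H pre suf T : List ℕ) : Prop where
  nd : T.Nodup
  hv : ∀ x ∈ H, Pre T (3 * x + 1) (3 * x + 2)
  lt : ∀ t ∈ T, (t % 3 = 0 ∧ t / 3 ∉ H ∧ NS k (t / 3) ∧ (t / 3 ∈ pre ∨ t / 3 ∈ suf)) ∨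
    (t % 3 ≠ 0 ∧ t / 3 ∈ H)
  mu : ∀ z ∈ pre ++ suf, NS k z → z ∈ H ∨ 3 * z ∈ T ∨ 2 ≤ (pre ++ suf).count z

/-! ### moves in a block -/

/-- `x` may be inserted behind `a` if it stands before `a` -/
def REo (n k : ℕ) (η : FIC) (H pre suf : List ℕ) (x a : ℕ) : Prop :=
  ∀ A D : List ℕ, Ok1 k H pre suf (A ++ x :: x :: a :: D) →
    RR η (Wd pre suf (A ++ x :: x :: a :: D))
      (Wd pre suf (A ++ x :: x :: a :: (List.replicate n x ++ D)))

/-- `x` may be inserted before `a` if it stands behind `a` -/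
def LEo (n k : ℕ) (η : FIC) (H pre suf : List ℕ) (x a : ℕ) : Prop :=
  ∀ A D : List ℕ, Ok1 k H pre suf (A ++ a :: x :: x :: D) →
    RR η (Wd pre suf (A ++ a :: x :: x :: D))
      (Wd pre suf (A ++ (List.replicate n x ++ a :: x :: x :: D)))

/-- the label `s` of `(x, a)` may be changed to `s'` -/
def CRo (n k : ℕ) (η : FIC) (H pre suf : List ℕ) (x a s s' : ℕ) : Prop :=
  ∀ A D : List ℕ, Ok1 k H pre suf (A ++ (List.replicate (n + s) x ++
      a :: (List.replicate (n + (n - 1) * s) x ++ D))) →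
    RR η (Wd pre suf (A ++ (List.replicate (n + s) x ++
      a :: (List.replicate (n + (n - 1) * s) x ++ D))))
      (Wd pre suf (A ++ (List.replicate (n + s') x ++
        a :: (List.replicate (n + (n - 1) * s') x ++ D))))

/-- the light letters `a`, `b` may be exchanged over a product of powers `x^(g x)` -/
def SWo (n k : ℕ) (η : FIC) (H pre suf : List ℕ) (a b : ℕ) (g : ℕ → ℕ) : Prop :=
  ∀ S A D : List ℕ, S.Nodup → (∀ x ∈ S, x ∈ H ∧ x ∈ A ∧ x ∈ D) →
    Ok1 k H pre suf (A ++ a :: (GG S g ++ b :: D)) →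
      RR η (Wd pre suf (A ++ a :: (GG S g ++ b :: D)))
        (Wd pre suf (A ++ (GG S g ++ b :: (GG S (fun x => (n - 1) * g x) ++ a :: (GG S g ++ D)))))

/-! ### normal forms -/

/-- all entries are `0` or `≥ 2` -/
def Hvy (k : ℕ) (a : ℕ → ℕ) : Prop := ∀ j ≤ k, a j = 0 ∨ 2 ≤ a j

/-- heavy, or light of degree two -/
def Gi (k : ℕ) (a : ℕ → ℕ) : Prop := Hvy k a ∨ ∃ u v, LL2 k a u v

/-- words of the same types in normal form are described by join prime pairs -/
def EdgeI (n : ℕ) (β : FIC) : Prop :=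
  ∀ (k : ℕ) (B B' : ℕ → List ℕ), OkB k B → OkB k B' → MWHP.EqT n k B B' →
    (∀ c, NS k c → Gi k (ty B c)) → (∀ c, NS k c → Gi k (ty B' c)) →
      ∃ L : List (List ℕ × List ℕ), (∀ e ∈ L, JPp β e) ∧
        ∀ θ : FIC, β ≤ θ → NC2 θ → (RR θ (asm k B) (asm k B') ↔ ∀ e ∈ L, RR θ e.1 e.2)

/-! ### the edges -/

/-- the canonical blocks: `Z` is the set of the blocks of `0`, the light letter `1` stands in the blocks
`i` and `p` -/
def wz (n i p : ℕ) (Z : ℕ → Bool) (u v : ℕ) : ℕ → List ℕ := fun j =>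
  if j = i then X u ++ 1 :: X v else if j = p then [1] else if Z j then X (2 * n) else []

/-- the relation of two canonical words -/
def Wz (n k i p : ℕ) (Z : ℕ → Bool) (u v u' v' : ℕ) (S : List ℕ → List ℕ → Prop) : Prop :=
  S (asm k (wz n i p Z u v)) (asm k (wz n i p Z u' v'))

/-- all `0` before `1`: `0` may be inserted behind `1` -/
def Re (n k i p : ℕ) (Z : ℕ → Bool) (S : List ℕ → List ℕ → Prop) : Prop :=
  Wz n k i p Z (2 * n) 0 (2 * n) (2 * n) S

/-- all `0` behind `1`: `0` may be inserted before `1` -/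
def Le (n k i p : ℕ) (Z : ℕ → Bool) (S : List ℕ → List ℕ → Prop) : Prop :=
  Wz n k i p Z 0 (2 * n) (2 * n) (2 * n) S

/-- `0^d` may cross `1` -/
def Dz (n k i p d : ℕ) (Z : ℕ → Bool) (S : List ℕ → List ℕ → Prop) : Prop :=
  Wz n k i p Z (2 * n + d) (2 * n) (2 * n) (2 * n + d) S

/-- all blocks -/
def Za : ℕ → Bool := fun _ => true

/-- the names of the edges -/
inductive Ed where
  | re : ℕ → ℕ → ℕ → Ed
  | le : ℕ → ℕ → ℕ → Ed
  | dz : ℕ → ℕ → ℕ → ℕ → Ed
  | s1 : Ed
  | s2 : Ed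
  | s3 : Ed

/-- left side -/
def Ed.l (n : ℕ) : Ed → List ℕ
  | Ed.re k i p => asm k (wz n i p Za (2 * n) 0)
  | Ed.le k i p => asm k (wz n i p Za 0 (2 * n))
  | Ed.dz k i p d => asm k (wz n i p Za (2 * n + d) (2 * n))
  | Ed.s1 => [0, 1, 2, 0, 3, 1]
  | Ed.s2 => [0, 2, 0, 1, 3, 1]
  | Ed.s3 => [0, 2, 1, 3, 0, 1]

/-- right side -/
def Ed.r (n : ℕ) : Ed → List ℕ
  | Ed.re k i p => asm k (wz n i p Za (2 * n) (2 * n))
  | Ed.le k i p => asm k (wz n i p Za (2 * n) (2 * n))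
  | Ed.dz k i p d => asm k (wz n i p Za (2 * n) (2 * n + d))
  | Ed.s1 => [1, 0, 2, 0, 3, 1]
  | Ed.s2 => [0, 2, 1, 0, 3, 1]
  | Ed.s3 => [0, 2, 1, 3, 1, 0]

/-- the edges which are used -/
def Good (n : ℕ) : Ed → Prop
  | Ed.re k i p => i ≤ k ∧ p ≤ k ∧ i ≠ p
  | Ed.le k i p => i ≤ k ∧ p ≤ k ∧ i ≠ p
  | Ed.dz k i p d => i ≤ k ∧ p ≤ k ∧ i ≠ p ∧ ∃ q e : ℕ, q.Prime ∧ n ∣ d * q ^ e
  | _ => True

/-- `S` has the edge -/
def EdIn (n : ℕ) (S : List ℕ → List ℕ → Prop) (e : Ed) : Prop := S (e.l n) (e.r n)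

/-- **JPE**: the edges are join prime. -/
def JpeStmt : Prop :=
  ∀ (n : ℕ) (β : FIC), BI n (RR β) → ∀ e : Ed, Good n e → JPp β (e.l n, e.r n)

/-- **EWI**: words of the same types in normal form are described by edges. -/
def EwiStmt : Prop := ∀ (n : ℕ) (β : FIC), BI n (RR β) → EdgeI n β

/-- **PRI**: the principle. -/
def PriStmt : Prop := ∀ (n : ℕ) (β : FIC), BI n (RR β) → EdgeI n β → DistF β

/-- **SU2**: the sufficiency of the system. -/
def Su2Stmt : Prop :=
  ∀ (n : ℕ) (β : FIC), 1 ≤ n → MWZ.Per n (RR β) → SysH2 n (RR β) → DistF β ∧ ModF β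

end Pool.Agent.MWGI
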