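import Pool.Agent.MWGI.Defs

/-!
# Block MWGI, part A: one block (rows)

Every row: file `Pool/Agent/Helper48_MWGI/XXX.lean`, import `Pool.Agent.MWGI.StmtsA`, namespace
`Pool.Agent.MWGI.HNN`, theorem `xxx (hypotheses = rows in uses, in this order) : XxxStmt`.
`RR θ u v` is the congruence on lists (`RR.refl, symm, append, sub` in `Helper2_MV/Keep.lean`;
transitivity is `θ.trans`); `β ≤ θ` is applied as `h _ _ hr`.  `MWGP.GapStmt` is proved
(`Pool.Agent.MWGP.H5.gap`): non-first occurrences may be multiplied (`x` to `x^(n+1)`) and commute.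
In the proofs `A`, `D` are parts of the block `l`, the whole word is `Wd pre suf l = pre ++ (l ++ suf)`;
all letters of `l` are multiple in this word (`Ok1`: heavy letters occur twice in `l`, light letters once
in `l` and once in `suf`), so `it` and `f` of `BG` can be used for all letters of `l`.
-/

namespace Pool.Agent.MWGI

open Pool.Agent.Helper14_MV Pool.Agent.Helper2_MV Pool.Agent.MVO Pool.Agent.MWL Pool.Agent.MWS
  Pool.Agent.MWH

/-! ### heavy letters commute, insertion of `x^n` -/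

/-- **HHL** (uses MWGP.GAP).  Two neighbouring heavy letters commute.
PROOF.  `x = y`: equal.  Let `x ≠ y`, `l = A ++ x :: y :: D`.
(1) `x ∈ pre ++ A` and `y ∈ pre ++ A`: GAP (second part) with `p := pre ++ A`, `q := D ++ suf`.
(2) `x ∉ pre ++ A`: `2 ≤ l.count x` gives `x ∈ D`.  (2a) `y ∈ D`: then `D = q ++ x :: (c ++ y :: r)` or
`D = q ++ y :: (c ++ x :: r)` (`List.append_of_mem` for `x`, then `y` is before or behind); the letters of `c` are
letters of `l`, so they are multiple in the word.  First case: `f` with `p := pre ++ A`, `r := r ++ suf`.  Second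
case: `f` for `(y, x)` and symmetry (the counts of the two words are the same).  (2b) `y ∉ D`: `2 ≤ l.count y`
gives `y ∈ A`.  Write `D = D1 ++ x :: D2`.  `it` with `p := pre ++ A`, `w = []`, `w' = y :: D1`:
`A x y D ~ A x x^n y D = A x^(n+1) y D`; GAP (1) for `y` (`y ∈ A`): `~ A x^(n+1) y^(n+1) D`; `rn` (`0 ↦ [x]`, `1 ↦ [y]`):
`~ A y^(n+1) x^(n+1) D`; GAP (1) backwards: `~ A y x^(n+1) D`; `it` backwards (`w = []`, `w' = D1`): `~ A y x D`.
(3) `y ∉ pre ++ A`, `x ∈ pre ++ A`: `y ∈ D`.  (3a) `x ∈ D`: as (2a).  (3b) `x ∉ D`: `x ∈ A`; this is (2b) for the word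
`A ++ y :: x :: D` with `x`, `y` exchanged, and symmetry. -/
def HhlStmt : Prop :=
  ∀ {k : ℕ} (n : ℕ) (β : FIC), BI n (RR β) → ∀ (H pre suf A D : List ℕ) (x y : ℕ),
    Ok1 k H pre suf (A ++ x :: y :: D) → x ∈ H → y ∈ H →
      RR β (Wd pre suf (A ++ x :: y :: D)) (Wd pre suf (A ++ y :: x :: D))

/-- **PRM** (uses HHL).  A factor of heavy letters may be permuted.
PROOF.  `Ok1` only depends on the numbers of occurrences, so it holds for all permutations.  Induction on
`List.Perm` (`P`, `P'`; for all `A`): `nil` trivial; `cons x`: the induction hypothesis for `A ++ [x]`; `swap x y`: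
HHL; `trans`: transitivity (the letters of the middle list are the same: `List.Perm.mem_iff`). -/
def PrmStmt : Prop :=
  ∀ {k : ℕ} (n : ℕ) (β : FIC), BI n (RR β) → ∀ (H pre suf A P P' D : List ℕ),
    Ok1 k H pre suf (A ++ (P ++ D)) → (∀ c ∈ P, c ∈ H) → P.Perm P' →
      Ok1 k H pre suf (A ++ (P' ++ D)) ∧
      RR β (Wd pre suf (A ++ (P ++ D))) (Wd pre suf (A ++ (P' ++ D)))

/-- **INL** (uses nothing).  Insertion of `x^(n m)` between two occurrences of a heavy letter.
PROOF.  `A = A1 ++ x :: A2`, `D = D1 ++ x :: D2`; `it` with `p := pre ++ A1`, `w := A2`, `w' := D1`,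
`q := D2 ++ suf` inserts `x^n`; induction on `m` (`x^(n (m+1)) = x^n x^(n m)`: insert the new `x^n` in front of the
old ones; `Ok1` is preserved: only the count of the heavy letter `x` increases). -/
def InlStmt : Prop :=
  ∀ {k : ℕ} (n : ℕ) (β : FIC), BI n (RR β) → ∀ (H pre suf A D : List ℕ) (x m : ℕ),
    Ok1 k H pre suf (A ++ D) → x ∈ H → x ∈ A → x ∈ D →
      Ok1 k H pre suf (A ++ (List.replicate (n * m) x ++ D)) ∧
      RR β (Wd pre suf (A ++ D)) (Wd pre suf (A ++ (List.replicate (n * m) x ++ D)))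

/-- **EXL** (uses INL).  The exponent of a power of `x` with an `x` before and behind may be changed to a
congruent number.
PROOF.  `e ≤ e'` or `e' ≤ e`; the larger one is the smaller one plus `n m` (`Nat.modEq_iff_dvd'`); INL with
`D := x^e ++ D` resp. `x^e' ++ D` (`x ∈ D`). -/
def ExlStmt : Prop :=
  ∀ {k : ℕ} (n : ℕ) (β : FIC), BI n (RR β) → ∀ (H pre suf A D : List ℕ) (x e e' : ℕ),
    Ok1 k H pre suf (A ++ (List.replicate e x ++ D)) → x ∈ H → x ∈ A → x ∈ D → e ≡ e' [MOD n] →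
      Ok1 k H pre suf (A ++ (List.replicate e' x ++ D)) ∧
      RR β (Wd pre suf (A ++ (List.replicate e x ++ D)))
        (Wd pre suf (A ++ (List.replicate e' x ++ D)))

/-- **EXS** (uses PRM, EXL).  The same for a product of powers and for two products.
PROOF.  First statement: induction on `S` (for all `A`): `GG (x :: S) g = x^(g x) ++ GG S g`; EXL for `x` (`D := GG S g ++ D`,
`x ∈ D`), then the induction hypothesis for `A ++ x^(g' x)`.  Second statement: `GG S g ++ GG S h` is a permutation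
of `GG S (g + h)` (all counts are equal; `List.perm_iff_count`, `S` without repetitions is not needed), PRM. -/
def ExsStmt : Prop :=
  ∀ {k : ℕ} (n : ℕ) (β : FIC), BI n (RR β) → ∀ (H pre suf S A D : List ℕ) (g g' : ℕ → ℕ),
    (∀ x ∈ S, x ∈ H ∧ x ∈ A ∧ x ∈ D) →
    (Ok1 k H pre suf (A ++ (GG S g ++ D)) → (∀ x ∈ S, g x ≡ g' x [MOD n]) →
      Ok1 k H pre suf (A ++ (GG S g' ++ D)) ∧
      RR β (Wd pre suf (A ++ (GG S g ++ D))) (Wd pre suf (A ++ (GG S g' ++ D)))) ∧
    (Ok1 k H pre suf (A ++ (GG S g ++ (GG S g' ++ D))) →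
      Ok1 k H pre suf (A ++ (GG S (fun x => g x + g' x) ++ D)) ∧
      RR β (Wd pre suf (A ++ (GG S g ++ (GG S g' ++ D))))
        (Wd pre suf (A ++ (GG S (fun x => g x + g' x) ++ D))))

/-! ### the realisation -/

/-- **RAP** (uses nothing).  Realisations of concatenated token lists; open letters.
PROOF.  First and second: induction on `T1` (for all `O`).  Third: induction on `T1` from the right
(`opn_append`, `T1 ++ [t]`), or: general statement by induction on `T1` for all `O`: `opn O T1 x` is `true` iff the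
last token of `T1` among `3x+1`, `3x+2` is `3x+1`, or there is none and `O x = true`.  In `T1 ++ T2` without
repetitions `3x+1` stands before `3x+2` (`Tk.hv`), so: no token of `x` in `T1`: `false`; only `3x+1` in `T1`: `true`; both
in `T1`: the last one is `3x+2`: `false`; only `3x+2` in `T1` is impossible. -/
def RapStmt : Prop :=
  (∀ (n : ℕ) (H : List ℕ) (Λ : ℕ → ℕ → ℕ) (N : ℕ → ℕ) (T1 T2 : List ℕ) (O : ℕ → Bool),
    real n H Λ N O (T1 ++ T2) = real n H Λ N O T1 ++ real n H Λ N (opn O T1) T2) ∧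
  (∀ (T1 T2 : List ℕ) (O : ℕ → Bool), opn O (T1 ++ T2) = opn (opn O T1) T2) ∧
  (∀ {k : ℕ} (H pre suf T1 T2 : List ℕ), Tk k H pre suf (T1 ++ T2) → ∀ x ∈ H,
    (opn O0 T1 x = true ↔ (3 * x + 1 ∈ T1 ∧ 3 * x + 2 ∈ T2)))

/-- **ROK** (uses RAP).  The realisation is an admissible block.
PROOF.  Letters of the realisation are heavy letters or `t / 3` for light tokens `t ∈ T`.  Heavy `x`: the token
`3x + 1 ∈ T` contributes `x^(2n)`, `2 n ≥ 2`.  Light `a` (`a ∉ H`): every light token `t` contributes the letter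
`t / 3` once, tokens of heavy letters only heavy letters, so the count of `a` is the count of the token `3a` in `T`,
which is `≤ 1` (`nd`).  The last three statements: count the letter `x` in `real` (third: for `T1` with
`3x+1 ∈ T1` the letter `x` is in `real n H Λ N O T1`; fourth: for `3x + 2 ∈ T2` the letter `x` is in `real n H Λ N O T2`, as
`1 ≤ n`), by induction or by writing `T1 = U ++ (3x+1) :: V` and RAP. -/
def RokStmt : Prop :=
  ∀ (n : ℕ) (H : List ℕ) (Λ : ℕ → ℕ → ℕ) (N : ℕ → ℕ), 1 ≤ n → H.Nodup →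
    (∀ {k : ℕ} (pre suf T : List ℕ), Tk k H pre suf T → Ok1 k H pre suf (real n H Λ N O0 T)) ∧
    (∀ (T : List ℕ) (O : ℕ → Bool) (a : ℕ), a ∉ H → (∀ t ∈ T, t % 3 = 0 ∨ t / 3 ∈ H) →
      (a ∈ real n H Λ N O T ↔ 3 * a ∈ T)) ∧
    (∀ (T : List ℕ) (O : ℕ → Bool) (x : ℕ), 3 * x + 1 ∈ T → x ∈ real n H Λ N O T) ∧
    (∀ (T : List ℕ) (O : ℕ → Bool) (x : ℕ), 3 * x + 2 ∈ T → x ∈ real n H Λ N O T)

/-- **RZE** (uses HHL, PRM, INL, EXL, EXS, RAP, ROK).  Every block is related to the realisation of its tokens.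
PROOF.  For a splitting `l = l1 ++ l2` let `T(l1)` be the token list read off from `l1`: go through `l1`; a light letter
`a` gives `3a`; a heavy letter `x` gives `3x+1` at its first occurrence in `l`, `3x+2` at its last occurrence in `l`
(different, as `2 ≤ l.count x`), nothing at the other occurrences.  (Define it recursively with the list of letters
seen before and the rest of the list.)  Let `K(l1)` be the list of the `x ∈ H` with `x ∈ l1`, `x ∈ l2` (in the order of `H`):
these are the open letters after `T(l1)`.  CLAIM: `Wd l ~ Wd (real O0 (T(l1)) ++ (GG K(l1) (fun x => n + l1.count x) ++ l2))`.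
Induction on `l1` from the left, `l2 = c :: l2'`:
(a) `c = a` light: `Λ x a = cb l x a = l1.count x` for `x ∈ K(l1)`; the open letters do not change.  Insert
`GG K (n + (n-1) Λ)` and `GG K (n + Λ)` behind `a` (together exponent `2 n + n Λ`, a multiple of `n`, EXS from exponent
`0`; `x` is before `a` in `GG K (n + Λ)` and behind `a` in `l2'`): `GG K (n+Λ) ++ a :: l2' ~
GG K (n+Λ) ++ a :: (GG K (n+(n-1)Λ) ++ (GG K (n+Λ) ++ l2'))`, and the first part is `outL n H Λ O a`.
(b) `c = x` first occurrence: `x ∉ l1`, `x ∈ l2'`.  `x ~ x^(3n+1)` (INL behind this `x`); move `x^(2n)` in front of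
`GG K(l1) ..` (PRM) as the output of `3x+1`; `x^(n+1)` is the new factor of `GG K(l1 ++ [x])` (PRM, order of `H`).
(c) a middle occurrence: `x ∈ l1`, `x ∈ l2'`: PRM, the exponent of `x` in `GG K` increases by `1`.
(d) the last occurrence: the factor `x^(n + l1.count x)` of `GG K` together with this `x` is `x^(n + l.count x)`
(`l1.count x + 1 = l.count x`), the output of `3x+2`; PRM moves it in front of the rest of `GG K`.
At the end `l2 = []`, `K = []`.  `Tk` for `T = T(l)` and the four facts follow from the definition: in `T(l)` the token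
`3a` stands before `3x+1` iff `x` does not occur before `a` in `l`, iff `cb l x a = 0`; `3x+2` stands before `3a` iff
all `x` stand before `a`, iff `cb l x a = l.count x`; `3a` stands before `3b` iff `a` stands before `b` iff
`cb l a b = 1` (otherwise `0`). -/
def RzeStmt : Prop :=
  ∀ {k : ℕ} (n : ℕ) (β : FIC), BI n (RR β) → ∀ (H pre suf l : List ℕ), Ok1 k H pre suf l →
    ∃ T : List ℕ, Tk k H pre suf T ∧ (∀ a, a ∉ H → (3 * a ∈ T ↔ a ∈ l)) ∧
      (∀ x ∈ H, ∀ a ∈ l, a ∉ H → (Pre T (3 * a) (3 * x + 1) ↔ cb l x a = 0) ∧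
        (Pre T (3 * x + 2) (3 * a) ↔ cb l x a = l.count x)) ∧
      (∀ a ∈ l, ∀ b ∈ l, a ∉ H → b ∉ H → a ≠ b → (Pre T (3 * a) (3 * b) ↔ cb l a b = 1)) ∧
      RR β (Wd pre suf l) (Wd pre suf (real n H (cb l) (fun x => l.count x) O0 T))

/-! ### the moves on token lists -/

/-- **RT1** (uses PRM, RAP, ROK).  Exchange of neighbouring tokens of two heavy letters.
PROOF.  `T = T1 ++ s :: t :: T2`, `T' = T1 ++ t :: s :: T2`.  RAP: `real O0 T = real O0 T1 ++ (out s ++ (out t ++ real O' T2))` with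
`out` = `x^(2n)` or `x^(n + N x)`, and the open function before `T2` is the same for `T'` (`Function.update_comm`,
`s / 3 ≠ t / 3`).  PRM for `out s ++ out t`. -/
def Rt1Stmt : Prop :=
  ∀ {k : ℕ} (n : ℕ) (β : FIC), BI n (RR β) → ∀ (H pre suf T1 T2 : List ℕ) (s t : ℕ) (Λ : ℕ → ℕ → ℕ)
    (N : ℕ → ℕ), H.Nodup → Tk k H pre suf (T1 ++ s :: t :: T2) → Tk k H pre suf (T1 ++ t :: s :: T2) →
      s % 3 ≠ 0 → t % 3 ≠ 0 → s / 3 ≠ t / 3 →
        RR β (Wd pre suf (real n H Λ N O0 (T1 ++ s :: t :: T2)))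
          (Wd pre suf (real n H Λ N O0 (T1 ++ t :: s :: T2)))

/-- **RT2** (uses PRM, EXL, EXS, RAP, ROK).  `close x, a` to `a, close x`.
PROOF.  Let `O` be the open function after `T1` (`O x = true` by RAP (third), since `3x+1 ∈ T1`),
`S = H.filter O'`, `O' = update O x false` and `S+ = H.filter O` (a permutation of `x :: S`).  First word:
`R1 ++ x^(n+N) ++ GG S (n+Λ) ++ a :: (GG S (n+(n-1)Λ) ++ R2)` with `R1 = real O0 T1 ∋ x`, `R2 = real O' T2`.  PRM: move `x^(n+N)` behind
`GG S (n+Λ)`; if `n + N < 2` make the exponent larger by EXL?  (`x` is not behind): instead take two letters `x` directly before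
`a` after PRM with the `x^(2n)` of `R1`: it is simpler to write `x^(n+N) = x^(n+N-2) ++ [x, x]` if `2 ≤ n + N`, which follows
from `1 ≤ n`, `1 ≤ N` (hypothesis `hN`).  `REo`: insert `x^n` behind `a`.  Now `x` is before and behind: EXL: the `x^(n+N)` before
`a` becomes `x^(n+Λ)` (`Λ ≡ N`, hypothesis), and the `x^n` behind `a` becomes `x^(n+(n-1)Λ + n + N)` (`(n-1)Λ + N ≡ n N ≡ 0`): for
this EXL needs an `x` behind: take `D := x :: ..`: apply EXL to the first part `x^(n-1)..`; or use `it` in the form INL with the splitting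
`A ++ [x]`, `D`: since `x^n` behind `a` has at least one `x`, and EXL changes the exponent of the part between this `x`
and the `x` before (`x^e` with `A ∋ x`, `D = x :: ..`).  Then PRM: `x^(n+Λ)` into `GG S+`, `x^(n+(n-1)Λ)` into `GG S+`, and
`x^(n+N)` remains in front of `R2` as the output of `3x+2`.  (`η ≥ β`: `h _ _`.) -/
def Rt2Stmt : Prop :=
  ∀ {k : ℕ} (n : ℕ) (β η : FIC), BI n (RR β) → β ≤ η → ∀ (H pre suf T1 T2 : List ℕ) (x a : ℕ)
    (Λ : ℕ → ℕ → ℕ) (N : ℕ → ℕ), H.Nodup →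
      Tk k H pre suf (T1 ++ (3 * x + 2) :: (3 * a) :: T2) →
      Tk k H pre suf (T1 ++ (3 * a) :: (3 * x + 2) :: T2) → 1 ≤ N x → Λ x a ≡ N x [MOD n] →
      REo n k η H pre suf x a →
        RR η (Wd pre suf (real n H Λ N O0 (T1 ++ (3 * x + 2) :: (3 * a) :: T2)))
          (Wd pre suf (real n H Λ N O0 (T1 ++ (3 * a) :: (3 * x + 2) :: T2)))

/-- **RT3** (uses PRM, EXL, EXS, RAP, ROK).  `a, open x` to `open x, a`.
PROOF.  Mirror image of RT2.  First word: `R1 ++ GG S (n+Λ) ++ a :: (GG S (n+(n-1)Λ) ++ (x^(2n) ++ R2))`, `R2 ∋ x`; PRM: `x^(2n)`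
directly behind `a`; `LEo`: insert `x^n` before `a`; now `x` is before and behind `a`: EXL: before `a`: `x^(2n) ++ x^(n+Λ)`
(`Λ ≡ 0`: the exponent is a multiple of `n`), behind `a`: `x^(n+(n-1)Λ)` (a multiple of `n` too); PRM: `x^(2n)` to the
front, the others into `GG S+`. -/
def Rt3Stmt : Prop :=
  ∀ {k : ℕ} (n : ℕ) (β η : FIC), BI n (RR β) → β ≤ η → ∀ (H pre suf T1 T2 : List ℕ) (x a : ℕ)
    (Λ : ℕ → ℕ → ℕ) (N : ℕ → ℕ), H.Nodup →
      Tk k H pre suf (T1 ++ (3 * a) :: (3 * x + 1) :: T2) →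
      Tk k H pre suf (T1 ++ (3 * x + 1) :: (3 * a) :: T2) → Λ x a ≡ 0 [MOD n] →
      LEo n k η H pre suf x a →
        RR η (Wd pre suf (real n H Λ N O0 (T1 ++ (3 * a) :: (3 * x + 1) :: T2)))
          (Wd pre suf (real n H Λ N O0 (T1 ++ (3 * x + 1) :: (3 * a) :: T2)))

/-- **RT4** (uses PRM, EXS, RAP, ROK).  Exchange of two light letters.
PROOF.  `S = H.filter O`, `O` the open function after `T1`; for `x ∈ S`: `x ∈ R1 = real O0 T1` and `x ∈ R2 = real O T2` (RAP
third, ROK: `3x+1 ∈ T1`, `3x+2 ∈ T2`; the two light tokens are not `3x+2`).  First word: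
`R1 ++ GG S (n+Λa) ++ a :: (GG S (n+(n-1)Λa) ++ (GG S (n+Λb) ++ b :: (GG S (n+(n-1)Λb) ++ R2)))`; EXS (second): the middle part is
`GG S g` with `g x = 2 n + (n-1) Λ x a + Λ x b`.  `SWo` (with `A = R1 ++ GG S (n+Λa)`, `D = GG S (n+(n-1)Λb) ++ R2`):
`R1 ++ GG S (n+Λa) ++ (GG S g ++ b :: (GG S ((n-1) g) ++ a :: (GG S g ++ (GG S (n+(n-1)Λb) ++ R2))))`.  Exponents mod `n`:
before `b`: `Λa + g ≡ Λb`; between `b` and `a`: `(n-1) g ≡ Λa - Λb`, target `(n + (n-1) Λb) + (n + Λa)`; behind `a`: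
`g + (n-1) Λb ≡ (n-1) Λa`: target `n + (n-1) Λa`.  EXS (second and first) gives
`R1 ++ GG S (n+Λb) ++ b :: (GG S (n+(n-1)Λb) ++ (GG S (n+Λa) ++ a :: (GG S (n+(n-1)Λa) ++ R2)))`, the second word. -/
def Rt4Stmt : Prop :=
  ∀ {k : ℕ} (n : ℕ) (β η : FIC), BI n (RR β) → β ≤ η → ∀ (H pre suf T1 T2 : List ℕ) (a b : ℕ)
    (Λ : ℕ → ℕ → ℕ) (N : ℕ → ℕ), H.Nodup →
      Tk k H pre suf (T1 ++ (3 * a) :: (3 * b) :: T2) →
      Tk k H pre suf (T1 ++ (3 * b) :: (3 * a) :: T2) →
      SWo n k η H pre suf a b (fun x => 2 * n + (n - 1) * Λ x a + Λ x b) →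
        RR η (Wd pre suf (real n H Λ N O0 (T1 ++ (3 * a) :: (3 * b) :: T2)))
          (Wd pre suf (real n H Λ N O0 (T1 ++ (3 * b) :: (3 * a) :: T2)))

/-- **RT5** (uses PRM, EXL, EXS, RAP, ROK).  Change of labels and totals.
PROOF.  It is enough to change the label of one pair `(x, a)` (or one total) at a time (finitely many pairs
matter: `x ∈ H`, `3a ∈ T`; the realisation only depends on these values).  Label of `(x, a)`: `T = T1 ++ (3a) :: T2`; if `x`
is not open after `T1`: the words are equal.  Otherwise PRM: the part around `a` is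
`GG S (n+Λ) ++ x^(n+Λ x a) ++ a :: (x^(n+(n-1)Λ x a) ++ ..)` with `S` the other open letters; `CRo`; PRM back.  Total of `x`:
`T = T1 ++ (3x+2) :: T2`: the output `x^(n+N x)` of the last token of `x`: `R1 ∋ x` before; write `n + N x = e + 1` and change `e` by
EXL (`D = x :: ..`; `n + N x ≥ 1`, `n + N' x ≥ 1`, `N x ≡ N' x`). -/
def Rt5Stmt : Prop :=
  ∀ {k : ℕ} (n : ℕ) (β η : FIC), BI n (RR β) → β ≤ η → ∀ (H pre suf T : List ℕ) (Λ Λ' : ℕ → ℕ → ℕ)
    (N N' : ℕ → ℕ), H.Nodup → Tk k H pre suf T → (∀ x ∈ H, N x ≡ N' x [MOD n]) →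
      (∀ x ∈ H, ∀ a, 3 * a ∈ T → CRo n k η H pre suf x a (Λ x a) (Λ' x a)) →
        RR η (Wd pre suf (real n H Λ N O0 T)) (Wd pre suf (real n H Λ' N' O0 T))

/-- **BBL** (uses MWS.LBB, MWS.BFX, RZE, ROK, EXL, RT1, RT2, RT3, RT4, RT5).  Two blocks with the same counts.
PROOF.  RZE for `l` and `l'`: `T`, `T'` (the same tokens: `T.Perm T'`, both without repetitions).  `Λ := cb l`,
`N x := l.count x`.  For a list without repetitions which contains `s ≠ t`: `Bef T s t` (MWS) iff `Pre T s t`.  LBB: a chain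
`Stq T'` from `T` to `T'`.  By induction along the chain prove for every token list `U` of the chain: (a) `U` is a
permutation of `T` and `Tk k H pre suf U`; (b) for tokens `s ≠ t`: if `Bef U s t` and `Bef T' s t` are different, then `Bef T s t` and
`Bef U s t` agree (BFX, as in the row MAS of MWS); (c) `RR η (Wd (real Λ N T)) (Wd (real Λ N U))`.
Step `U = A ++ s :: t :: D → U2 = A ++ t :: s :: D`: `s` stands before `t` in `U`, `t` before `s` in `T'` (`Stq`), hence by (b) `s`
before `t` in `T`.  `3x+1` is before `3x+2` in `T` and `T'`, so `s`, `t` are not the two tokens of one letter, and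
`Tk U2`.  CASES.  Both tokens heavy: RT1.  `s = 3x+2`, `t = 3a`: `cb l x a = l.count x` (order in `T`) and `cb l' x a ≠ l'.count x`
(order in `T'`): hypothesis `hRE`; RT2 (`Λ x a = N x`).  `s = 3a`, `t = 3x+2`: `cb l x a ≠ l.count x`, `cb l' x a = l'.count x`: `hRE`; RT5
changes the label of the pair `(x, a)` to `cb l' x a` (`hCR`; the other labels stay: `CRo` with equal labels is
trivial); RT2 for the new labels, backwards (`cb l' x a = l'.count x ≡ N x`); the realisation of `U2` (where `x` is closed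
before `a`) does not depend on this label: RT5 or equality.  `s = 3a`, `t = 3x+1`: `cb l x a = 0`: `hLE`, RT3.  `s = 3x+1`, `t = 3a`: `cb l' x a = 0`:
RT5 to the label `0`, RT3 backwards.  `s = 3a`, `t = 3b`: `cb l a b = 1`, `cb l' a b = 0`: `hSW`, RT4.
END: `RR η (Wd l) (Wd (real Λ N T'))`; RT5 to the labels `cb l'` and the totals `l'.count` (`hCR`); RZE for `l'`. -/
def BblStmt : Prop :=
  ∀ {k : ℕ} (n : ℕ) (β η : FIC), BI n (RR β) → β ≤ η → ∀ (H pre suf l l' : List ℕ), Ok1 k H pre suf l →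
    Ok1 k H pre suf l' → (∀ a, a ∉ H → (a ∈ l ↔ a ∈ l')) →
      (∀ x ∈ H, l.count x ≡ l'.count x [MOD n]) →
      (∀ x ∈ H, ∀ a ∈ l, a ∉ H → ¬ (cb l x a = l.count x ↔ cb l' x a = l'.count x) →
        REo n k η H pre suf x a) →
      (∀ x ∈ H, ∀ a ∈ l, a ∉ H → ¬ (cb l x a = 0 ↔ cb l' x a = 0) → LEo n k η H pre suf x a) →
      (∀ x ∈ H, ∀ a ∈ l, a ∉ H → CRo n k η H pre suf x a (cb l x a) (cb l' x a)) →
      (∀ a ∈ l, ∀ b ∈ l, a ∉ H → b ∉ H → a ≠ b → cb l a b = 1 → cb l' a b = 0 →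
        SWo n k η H pre suf a b (fun x => 2 * n + (n - 1) * cb l x a + cb l x b)) →
        RR η (Wd pre suf l) (Wd pre suf l')

end Pool.Agent.MWGI
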