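import Pool.Agent.MWGI.DefsE
import Pool.Agent.MWGI.StmtsA

/-!
# Block MWGI, part C: the moves (rows)

Every row: file `Pool/Agent/HelperNN_MWGI/XXX.lean`, import `Pool.Agent.MWGI.StmtsC`, namespace
`Pool.Agent.MWGI.HNN`, theorem `xxx (hypotheses = rows in uses, in this order) : XxxStmt`.
Twins of the rows of MWGR (`MWGR/StmtsC.lean`, table mwgr) have the same names.  EXL, PRM, EXS, INL, BBL in `uses` are rows of
`MWGI/StmtsA.lean` (proved in `Helper48_MWGI/CompA.lean`); take them as hypotheses like the twins do.  `Ok1 k H pre suf l`: every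
letter of `H` occurs twice in `l`; a letter `a ∉ H` of `l` occurs once in `l` and in `pre` or in `suf`; every
letter `z` with `NS k z` (no separator) of `pre ++ suf` is multiple in the word.  So all letters of `l` and
all letters of `pre`, `suf` except the separators are multiple, and this stays true if the numbers of the
letters of `H` in `l` change and stay `≥ 2`.
-/

namespace Pool.Agent.MWGI

open Pool.Agent.Helper14_MV Pool.Agent.Helper2_MV Pool.Agent.MVO Pool.Agent.MWL Pool.Agent.MWS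
  Pool.Agent.MWH

/-! ### definitions -/

/-- `x` and `a` may be exchanged -/
def CrS (k : ℕ) (η : FIC) (H pre suf : List ℕ) (x a : ℕ) : Prop :=
  ∀ A D : List ℕ, Ok1 k H pre suf (A ++ x :: a :: D) →
    RR η (Wd pre suf (A ++ x :: a :: D)) (Wd pre suf (A ++ a :: x :: D))

/-- `x` and `a` may be exchanged if there is an `x` behind them in the block -/
def CrW (k : ℕ) (η : FIC) (H pre suf : List ℕ) (x a : ℕ) : Prop :=
  ∀ A D : List ℕ, x ∈ D → Ok1 k H pre suf (A ++ x :: a :: D) →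
    RR η (Wd pre suf (A ++ x :: a :: D)) (Wd pre suf (A ++ a :: x :: D))

/-- `x` and `a` may be exchanged if there is an `x` before them in the block -/
def CrV (k : ℕ) (η : FIC) (H pre suf : List ℕ) (x a : ℕ) : Prop :=
  ∀ A D : List ℕ, x ∈ A → Ok1 k H pre suf (A ++ x :: a :: D) →
    RR η (Wd pre suf (A ++ x :: a :: D)) (Wd pre suf (A ++ a :: x :: D))

/-- `a` and `b` may be exchanged over `W^(n+c)`, `W` a product of heavy letters which occur before and
behind -/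
def EXo (n k : ℕ) (η : FIC) (H pre suf : List ℕ) (a b c : ℕ) : Prop :=
  ∀ A D W : List ℕ, (∀ z ∈ W, z ∈ H ∧ z ∈ A ∧ z ∈ D) →
    Ok1 k H pre suf (A ++ (rp n W ++ a :: (rp (n + c) W ++ b :: (rp n W ++ D)))) →
      RR η (Wd pre suf (A ++ (rp n W ++ a :: (rp (n + c) W ++ b :: (rp n W ++ D)))))
        (Wd pre suf (A ++ (rp (n + c) W ++ b :: (rp (n + (n - 1) * c) W ++
          a :: (rp (n + c) W ++ D)))))

/-- the light letters `a`, `b` may be exchanged over a product of powers `x^(h x)` if all `h x` are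
multiples of `c` mod `n` -/
def SWx (n k : ℕ) (η : FIC) (H pre suf : List ℕ) (a b c : ℕ) : Prop :=
  ∀ (S : List ℕ) (h : ℕ → ℕ), S.Nodup → (∀ x ∈ S, ∃ e, h x ≡ e * c [MOD n]) →
    ∀ A D : List ℕ, (∀ x ∈ S, x ∈ H ∧ x ∈ A ∧ x ∈ D) →
      Ok1 k H pre suf (A ++ a :: (GG S h ++ b :: D)) →
        RR η (Wd pre suf (A ++ a :: (GG S h ++ b :: D)))
          (Wd pre suf (A ++ (GG S h ++ b :: (GG S (fun x => (n - 1) * h x) ++
            a :: (GG S h ++ D)))))

/-- `a` and `b` may be exchanged if they are neighbours -/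
def ADo (k : ℕ) (η : FIC) (H pre suf : List ℕ) (a b : ℕ) : Prop :=
  ∀ A D : List ℕ, Ok1 k H pre suf (A ++ a :: b :: D) →
    RR η (Wd pre suf (A ++ a :: b :: D)) (Wd pre suf (A ++ b :: a :: D))

/-! ### free crossing -/

/-- **CSB** (uses nothing).  Two letters with another common block may be exchanged.
PROOF.  The word is `(pre C i ++ A) ++ x :: a :: (D ++ suf C i (k-i))`.  `i < j`: `suf C i (k-i) = R ++ C j ++ R'` (`suf_split`),
`C j = P ++ x :: (w ++ a :: Q)`: `f` of `BI` (`x`, `y := a`, `c := w`); the letters of `w` are letters of `C j`, so `NS k` (`OkB.ok`) and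
multiple (`Ok1.mu`).  `C j = P ++ a :: (w ++ x :: Q)`: `f` for `(a, x)` and symmetry.  `j < i`: `pre C i = pre C j ++ C j ++ R`
(`pre_split`), `f'` in the same way. -/
def CsbStmt : Prop :=
  ∀ (n k : ℕ) (η : FIC) (C : ℕ → List ℕ), BI n (RR η) → OkB k C → ∀ i j x a, i ≤ k → j ≤ k →
    i ≠ j → x ≠ a → x ∈ C j → a ∈ C j →
      ∀ H : List ℕ, CrS k η H (pre C i) (suf C i (k - i)) x a

/-- **MV1** (uses nothing).  Crossing gives `REo` (twin of MWGR MV1). -/
def Mv1Stmt : Prop :=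
  ∀ (n k : ℕ) (η : FIC), BI n (RR η) → ∀ (H pre suf : List ℕ) (x a : ℕ), a ∉ H →
    CrS k η H pre suf x a → REo n k η H pre suf x a

/-- **MV2** (uses nothing).  Crossing gives `LEo` (twin of MWGR MV2). -/
def Mv2Stmt : Prop :=
  ∀ (n k : ℕ) (η : FIC), BI n (RR η) → ∀ (H pre suf : List ℕ) (x a : ℕ), a ∉ H →
    CrW k η H pre suf x a → LEo n k η H pre suf x a

/-- **CRM** (uses EXL).  `CRo` for congruent labels; symmetry, transitivity (twin of MWGR CRM). -/
def CrmStmt : Prop :=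
  ∀ (n k : ℕ) (η : FIC), BI n (RR η) → ∀ (H pre suf : List ℕ) (x a : ℕ),
    (∀ s s', s ≡ s' [MOD n] → CRo n k η H pre suf x a s s') ∧
    (∀ s s', CRo n k η H pre suf x a s s' → CRo n k η H pre suf x a s' s) ∧
    (∀ s s' s'', CRo n k η H pre suf x a s s' → CRo n k η H pre suf x a s' s'' →
      CRo n k η H pre suf x a s s'')

/-- **MV3** (uses CRM).  Crossing gives `CRo` for all labels (twin of MWGR MV3; with `CrV`: the `x` which crosses has an
`x` before it, as the exponent before `a` is at least `1`: in the step from `s` to `s + 1` the block is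
`A ++ x^(n+s) ++ a :: x :: x^m ++ D`, `n + s ≥ 1`; backwards this is the crossing of `x a` behind `A ++ x^(n+s)`). -/
def Mv3Stmt : Prop :=
  ∀ (n k : ℕ) (η : FIC), BI n (RR η) → ∀ (H pre suf : List ℕ) (x a : ℕ), a ∉ H →
    CrW k η H pre suf x a ∨ CrV k η H pre suf x a → ∀ s s', CRo n k η H pre suf x a s s'

/-! ### moves of an active pair from the edges -/

/-- **MWR** (uses nothing).  `Re` gives `REo`.
PROOF.  The word is `asm k C1`, `C1 = update C i (A ++ x :: x :: a :: D)` (`asm_update`).  (1) For every `j ≤ k`, `j ≠ i, p`, with `x ∈ C j`: `C j` contains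
`x` twice (`Act.hx`): `C j = P_j ++ x :: (w_j ++ x :: Q_j)`; `it` (twice) inserts `X(2n)` (of the letter `x`) behind the first `x`: the letters
between are letters of `C j`, multiple by `Ok1.mu`.  In block `i`: `x x a D ~ x x x^(2n) a D` by `per`.  (2) `rr_sub` and `rr_ins'` for the
relation `Re n k i p Z` with `0 ↦ [x]`, `1 ↦ [a]`: block `j ≠ i, p`: `P = P_j ++ [x]`, `Q = w_j ++ x :: Q_j` if `x ∈ C j`, and `P = C j`, `Q = []`
otherwise (`Z j = false`); block `p`: `C p = P ++ a :: Q`; block `i`: `P = A ++ [x, x]`, `Q = D`: the new word has `x^(2n)` inserted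
behind `a` in block `i`.  (3) Remove the insertions of (1) again, and `x x x^(2n) a x^(2n) D ~ x x a x^n D`: `it` before and
behind `a` (there is an `x` on the other side of `a`; `a` is multiple). -/
def MwrStmt : Prop :=
  ∀ (n k : ℕ) (θ : FIC) (C : ℕ → List ℕ), BI n (RR θ) → OkB k C → ∀ i p x a, Act k C i p x a →
    ∀ Z : ℕ → Bool, (∀ j ≤ k, j ≠ i → j ≠ p → (Z j = true ↔ x ∈ C j)) → Re n k i p Z (RR θ) →
      ∀ H : List ℕ, a ∉ H → REo n k θ H (pre C i) (suf C i (k - i)) x a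

/-- **MWL** (uses nothing).  `Le` gives `LEo` (mirror image of MWR: in block `i` `P = A`, `Q = x :: x :: D`). -/
def MwlStmt : Prop :=
  ∀ (n k : ℕ) (θ : FIC) (C : ℕ → List ℕ), BI n (RR θ) → OkB k C → ∀ i p x a, Act k C i p x a →
    ∀ Z : ℕ → Bool, (∀ j ≤ k, j ≠ i → j ≠ p → (Z j = true ↔ x ∈ C j)) → Le n k i p Z (RR θ) →
      ∀ H : List ℕ, a ∉ H → LEo n k θ H (pre C i) (suf C i (k - i)) x a

/-- **MWD** (uses CRM).  `Dz d` changes a label by `d`.
PROOF.  As MWR with `Dz`: block `i`: `P = A ++ x^(s')`, `Q = x^t ++ D`, `t = (n-1) s`: `A x^(s'+2n+d) a x^(2n+t) D ~ A x^(s'+2n) a x^(2n+d+t) D`.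
Exponents mod `n` (all are `≥ 2`: `per`): `s' + 2n + d ≡ n + s`, `2n + t ≡ n + (n-1) s`, `s' + 2n ≡ n + s'`, `2n + d + t ≡ n + (n-1) s'`; for the
change from an exponent `≥ 2` to `n + s` which may be `1`: `it` (there is an `x` on both sides of `a`). -/
def MwdStmt : Prop :=
  ∀ (n k : ℕ) (θ : FIC) (C : ℕ → List ℕ), BI n (RR θ) → OkB k C → ∀ i p x a, Act k C i p x a →
    ∀ Z : ℕ → Bool, (∀ j ≤ k, j ≠ i → j ≠ p → (Z j = true ↔ x ∈ C j)) → ∀ d,
      Dz n k i p d Z (RR θ) → ∀ H : List ℕ, a ∉ H → ∀ s s', s ≡ s' + d [MOD n] →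
        CRo n k θ H (pre C i) (suf C i (k - i)) x a s s'

/-! ### exchange of two light letters -/

/-- **VEC** (uses PRM, EXS).  Twin of MWGR VEC. -/
def VecStmt : Prop :=
  ∀ (n k : ℕ) (η : FIC), BI n (RR η) → ∀ (H pre suf : List ℕ) (a b c : ℕ), a ∉ H → b ∉ H →
    EXo n k η H pre suf a b c → SWx n k η H pre suf a b c

/-- **VER** (uses PRM, EXS).  Twin of MWGR VER. -/
def VerStmt : Prop :=
  ∀ (n k : ℕ) (η : FIC), BI n (RR η) → ∀ (H pre suf : List ℕ) (a b c : ℕ), a ∉ H → b ∉ H →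
    EXo n k η H pre suf b a c → SWx n k η H pre suf a b c

/-- **SW0** (uses EXS).  Twin of MWGR SW0. -/
def Sw0Stmt : Prop :=
  ∀ (n k : ℕ) (η : FIC), BI n (RR η) → ∀ (H pre suf : List ℕ) (a b : ℕ), a ∉ H → b ∉ H →
    ADo k η H pre suf a b → SWx n k η H pre suf a b n

/-- **MSW** (uses PRM, EXS, CRM).  Twin of MWGR MSW. -/
def MswStmt : Prop :=
  ∀ (n k : ℕ) (η : FIC), BI n (RR η) → ∀ (H pre suf : List ℕ) (a b c : ℕ) (g : ℕ → ℕ), a ∉ H →
    b ∉ H → SWx n k η H pre suf a b c →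
      (∀ x ∈ H, (∀ s s', CRo n k η H pre suf x a s s') ∨ (∀ s s', CRo n k η H pre suf x b s s') ∨
        ∃ e, g x ≡ e * c [MOD n]) →
        SWo n k η H pre suf a b g

/-- **SWF** (uses nothing).  Exchange of two light letters with another common block, from `FE` and `FE'`.
PROOF.  `i < j`: `suf C i (k-i) = R ++ C j ++ R'`, `C j = P ++ a :: (w ++ b :: Q)`: `fe` of `BI` with a letter `y` (for `x`) which does not occur
in the word and is not `a`, `b`, `p := pre ++ A`, `q := D ++ R ++ P`, `r := Q ++ R'`.  The letters of `w` are letters of `C j`, so `NS k`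
and multiple in the word (`Ok1.mu`); they are multiple also after deleting the powers of `W`: a letter `z` of `W` occurs
in `A` and in `D`, the other letters are not changed.  Then `RR.sub` with `y ↦ W`, `c ↦ [c]` otherwise.
`C j = P ++ b :: (w ++ a :: Q)`: the same for `(b, a)`.  `j < i`: `pre C i = pre C j ++ C j ++ R` (`pre_split`), `fe'`. -/
def SwfStmt : Prop :=
  ∀ (n k : ℕ) (θ : FIC) (C : ℕ → List ℕ), BI n (RR θ) → OkB k C → ∀ i j a b, i ≤ k → j ≤ k →
    i ≠ j → a ≠ b → a ∈ C j → b ∈ C j → ∀ H : List ℕ, a ∉ H → b ∉ H →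
      EXo n k θ H (pre C i) (suf C i (k - i)) a b 1 ∨ EXo n k θ H (pre C i) (suf C i (k - i)) b a 1

/-- **KSS** (uses nothing).  The bits `s1`, `s2`, `s3`.
PROOF.  (1) `s1` is `0 1 2 0 3 1 ~ 1 0 2 0 3 1`.  Crossing: `D = D1 ++ x :: D2`, `sf = t1 ++ a :: t2`: `0 ↦ [x]`, `1 ↦ [a]`, `2 ↦ D1`,
`3 ↦ D2 ++ t1`.  Exchange: `sf = t1 ++ a :: (t2 ++ b :: t3)`: `0 ↦ [a]`, `1 ↦ [b]`, `2 ↦ D ++ t1`, `3 ↦ t2`; for `[b, a]`: exchanged, symmetry.
(2) `s2` is `0 2 0 1 3 1 ~ 0 2 1 0 3 1`.  Crossing: `A = A1 ++ x :: A2`: `0 ↦ [x]`, `1 ↦ [a]`, `2 ↦ A2`, `3 ↦ D ++ t1`.  Exchange: `pr = p1 ++ a :: p2`,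
`sf = t1 ++ b :: t2`: `0 ↦ [a]`, `1 ↦ [b]`, `2 ↦ p2 ++ A`, `3 ↦ D ++ t1`; the other case: exchanged, symmetry.  (3) `s3` is
`0 2 1 3 0 1 ~ 0 2 1 3 1 0`.  Crossing: `pr = p1 ++ a :: p2`, `A = A1 ++ x :: A2`: `0 ↦ [a]`, `1 ↦ [x]`, `2 ↦ p2 ++ A1`, `3 ↦ A2`, symmetry.
Exchange: `pr = p1 ++ a :: (p2 ++ b :: p3)`: `0 ↦ [a]`, `1 ↦ [b]`, `2 ↦ p2`, `3 ↦ p3 ++ A`; for `[b, a]`: exchanged, symmetry. -/
def KssStmt : Prop :=
  ∀ (n k : ℕ) (η : FIC) (H pr sf : List ℕ),
    (EdIn n (RR η) Ed.s1 → (∀ x a, a ∈ sf → CrW k η H pr sf x a) ∧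
      (∀ a b, [a, b].Sublist sf ∨ [b, a].Sublist sf → ADo k η H pr sf a b)) ∧
    (EdIn n (RR η) Ed.s2 → (∀ x a, a ∈ sf → CrV k η H pr sf x a) ∧
      (∀ a b, (a ∈ pr ∧ b ∈ sf) ∨ (b ∈ pr ∧ a ∈ sf) → ADo k η H pr sf a b)) ∧
    (EdIn n (RR η) Ed.s3 → (∀ x a, a ∈ pr → CrV k η H pr sf x a) ∧
      (∀ a b, [a, b].Sublist pr ∨ [b, a].Sublist pr → ADo k η H pr sf a b))

/-- **SQ2** (uses nothing).  Two letters in different blocks.
PROOF.  `suf_split` for the block `p` and again behind it (`suf C i (k-i) = suf C i (p-i) ++ suf C p (k-p)`, induction on `k`),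
`pre_split` for the block `q` and `mem_pre` for the block `p`: `pre C i = pre C q ++ C q ++ R`. -/
def Sq2Stmt : Prop :=
  ∀ (k i p q a b : ℕ) (C : ℕ → List ℕ), i ≤ k → a ∈ C p → b ∈ C q → p < q →
    (i < p → q ≤ k → [a, b].Sublist (suf C i (k - i))) ∧ (q < i → [a, b].Sublist (pre C i))

end Pool.Agent.MWGI
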