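import Pool.Agent.MWGI.DefsE

/-!
# Block MWGI, part N: necessary edges (rows)

Every row: file `Pool/Agent/HelperNN_MWGI/XXX.lean`, import `Pool.Agent.MWGI.StmtsN`, namespace
`Pool.Agent.MWGI.HNN`, theorem `xxx (hypotheses = rows in uses, in this order) : XxxStmt`.
`Wz n k i p Z u v u' v' (RR θ)` is the relation of two canonical words: block `i` is `0^u 1 0^v`, block `p`
is `1`, the blocks of `Z` are `0^(2n)`, the others are empty (`wz` in `MWGI/Defs.lean`).  Tools: `rr_ins'` (insertion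
of words at both ends of all blocks), `rr_sub` (substitution in the blocks), `rr_push` (maps of blocks), all in
`MVO/Basic.lean`, `MVO/Push.lean`; `asm_split`, `asm_update` in `MVO/Split.lean`.  `BI.per`: `x² ~ x^(n+2)`, so powers
with exponents `≥ 2` may be changed mod `n`; `BI.it`: `x^n` may be inserted between two occurrences of `x` (the letters
between must be multiple in the word).
-/

namespace Pool.Agent.MWGI

open Pool.Agent.Helper14_MV Pool.Agent.Helper2_MV Pool.Agent.MVO Pool.Agent.MWL Pool.Agent.MWS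
  Pool.Agent.MWH

/-- **WEX** (uses nothing).  Exponents in canonical words.
PROOF.  (1) `u, u1 ≥ 2` or the letter `0` stands on the other side of `1` too.  It is enough to change one exponent by
`n` (induction, symmetry, the larger one is the smaller one plus a multiple of `n`).  If `2 ≤ u`: `per` (`0^2 ~ 0^(n+2)`)
inside the word.  If `u = 1` (so `1 ≤ v`): `it` with `x = 0`, `w = []`, `w' = [1]`: between the `0` before `1` and the `0` behind `1`
(`1` is multiple: blocks `i` and `p`): the word is `asm k (wz ..) = pre ++ (0 :: 1 :: 0^v) ++ suf` (`asm_split`).  (2) the same for `v`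
(`w = [1]`, `w' = []`). -/
def WexStmt : Prop :=
  ∀ (n k i p : ℕ) (θ : FIC) (Z : ℕ → Bool), BI n (RR θ) → i ≤ k → p ≤ k → i ≠ p →
    ∀ u v u1 v1 : ℕ, u ≡ u1 [MOD n] → v ≡ v1 [MOD n] →
      (u = u1 ∨ (2 ≤ u ∧ 2 ≤ u1) ∨ (1 ≤ u ∧ 1 ≤ u1 ∧ 1 ≤ v)) →
      (v = v1 ∨ (2 ≤ v ∧ 2 ≤ v1) ∨ (1 ≤ v ∧ 1 ≤ v1 ∧ 1 ≤ u1)) →
        Wz n k i p Z u v u1 v1 (RR θ)

/-- **NWR** (uses WEX).  The right state.
PROOF.  `rr_ins'` with `Q i = X (2n)`: `(u, 2n) ~ (u', v' + 2n)` (write `(u, v)` for the canonical word).  WEX: `(u', v' + 2n) ~ (u', v')`: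
`2 ≤ v'`, or `v' = 1`, `1 ≤ u'`.  So `(u, 2n) ~ (u', v') ~ (u, 0)`.  `rr_ins'` with `P i = X m`, `m = (n-1) u + 2n`:
`(u + m, 0) ~ (u + m, 2n)`, and `u + m ≡ 2n`: WEX on both sides. -/
def NwrStmt : Prop :=
  ∀ (n k i p : ℕ) (θ : FIC) (Z : ℕ → Bool), BI n (RR θ) → i ≤ k → p ≤ k → i ≠ p →
    ∀ u u' v' : ℕ, 2 ≤ u → 2 ≤ u' + v' → 1 ≤ v' →
      Wz n k i p Z u 0 u' v' (RR θ) → Re n k i p Z (RR θ)

/-- **NWL** (uses WEX).  The left state (mirror image of NWR).
PROOF.  `P i = X (2n)`: `(2n, v) ~ (u' + 2n, v') ~ (u', v') ~ (0, v)`; then `Q i = X m`, `m = (n-1) v + 2n`. -/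
def NwlStmt : Prop :=
  ∀ (n k i p : ℕ) (θ : FIC) (Z : ℕ → Bool), BI n (RR θ) → i ≤ k → p ≤ k → i ≠ p →
    ∀ v u' v' : ℕ, 2 ≤ v → 2 ≤ u' + v' → 1 ≤ u' →
      Wz n k i p Z 0 v u' v' (RR θ) → Le n k i p Z (RR θ)

/-- **NWD** (uses WEX).  The label.
PROOF.  `rr_ins'` with `P i = X s`, `Q i = X t`, `s = 2n + (n-1) u'`, `t = 2n + (n-1) v`: `(u+s, v+t) ~ (u'+s, v'+t)`; mod `n`: `u + s ≡ d`,
`v + t ≡ 0`, `u' + s ≡ 0`, `v' + t ≡ v' - v ≡ u - u' ≡ d` with `d = u + (n-1) u'`.  All exponents are `≥ 2`: WEX. -/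
def NwdStmt : Prop :=
  ∀ (n k i p : ℕ) (θ : FIC) (Z : ℕ → Bool), BI n (RR θ) → i ≤ k → p ≤ k → i ≠ p →
    ∀ u v u' v' : ℕ, u + v ≡ u' + v' [MOD n] →
      Wz n k i p Z u v u' v' (RR θ) → Dz n k i p (u + (n - 1) * u') Z (RR θ)

/-- **DZA** (uses WEX).  The numbers `d` with `Dz`.
PROOF.  As the row DMA of MWGR (`MWGR/StmtsE.lean`; its file is a template): `D := {d | Dz n k i p d Z (RR η)}` is closed under congruence
mod `n` (WEX), contains `0`, and is closed under addition: `(2n + d + d', 2n) ~ (2n + d', 2n + d) ~ (2n, 2n + d + d')`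
(`rr_ins'` with `P i = X d'`, resp. `Q i = X d`).  So `D` = multiples of some `g ∣ n`.  Second statement: arithmetic as there. -/
def DzaStmt : Prop :=
  ∀ (n k i p : ℕ) (η : FIC) (Z : ℕ → Bool), BI n (RR η) → i ≤ k → p ≤ k → i ≠ p →
    (∃ g, g ∣ n ∧ ∀ d, Dz n k i p d Z (RR η) ↔ g ∣ d) ∧
    ∀ d, (∀ q ∈ n.primeFactors, Dz n k i p (d * (n / q ^ n.factorization q)) Z (RR η)) →
      Dz n k i p d Z (RR η)

/-- **NRW** (uses nothing).  Restriction of a pair of words to an active pair.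
PROOF.  `rr_sub` with `x ↦ [0]`, `a ↦ [1]`, all other letters `↦ []` (the letters of the blocks are no separators): block `i` becomes
`X u ++ 1 :: X v` with `u = cb (B i) x a`, `v = count - u` (`B i = P ++ a :: Q`, `a ∉ P`, `a ∉ Q`; `cb` counts `x` in `P`), block `p` becomes
`[1]` (`x ∉ B p`), the other blocks `X ((B j).count x)`.  The same for `B'` (`EqT`: the same shape, so `x ∉ B' p`, `a` once in
`B' i`, `B' p`, not in the others).  `rr_ins'` with `Q j = X (2n * e j - ..)`: insert `X m_j`, `m_j = (n-1) c_j + 2n` with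
`c_j = (B j).count x`, in the blocks `j ≠ i, p` with `x ∈ B j`: the exponents are `c_j + m_j ≡ c'_j + m_j ≡ 2n` and `≥ 2`: `per`
changes them to `2n` (block after block: `asm_split`, `asm_update`). -/
def NrwStmt : Prop :=
  ∀ (n k : ℕ) (θ : FIC) (B B' : ℕ → List ℕ), BI n (RR θ) → Fam n k B B' →
    RR θ (asm k B) (asm k B') → ∀ i p x a, Act k B i p x a →
      Wz n k i p (Zx B x) (cb (B i) x a) ((B i).count x - cb (B i) x a) (cb (B' i) x a)
        ((B' i).count x - cb (B' i) x a) (RR θ)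

/-- **NSS** (uses nothing).  Two light letters of block `i` in different order, their other blocks `p`, `q` are different.
PROOF.  `rr_push` with three blocks: the three blocks `i`, `p`, `q` in their order go to `0`, `1`, `2`: `f j` = number of the blocks of
`{i, p, q}` which are `≤ j`, minus `1` (natural subtraction); then `rr_sub`: `a`, `b` to `0`, `1`, the others deleted.  (1) `i < p < q`:
`0 1 | 0 | 1` and `1 0 | 0 | 1` (`a ↦ 0`, `b ↦ 1`): `S1`; `i < q < p`: `a ↦ 1`, `b ↦ 0` and symmetry.  (2) `q < i < p`: `b` is the last token: `b ↦ 0`, `a ↦ 1`: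
`0 | 1 0 | 1` and `0 | 0 1 | 1`: `S2` (symmetry).  `p < i < q`: `a ↦ 0`, `b ↦ 1`.  (3) `p < q < i`: `a ↦ 0`, `b ↦ 1`: `0 | 1 | 0 1` and `0 | 1 | 1 0`: `S3`
(`Ed.s3`); `q < p < i`: exchanged. -/
def NssStmt : Prop :=
  ∀ (n k : ℕ) (θ : FIC) (B B' : ℕ → List ℕ), Fam n k B B' → RR θ (asm k B) (asm k B') →
    ∀ i p q a b, i ≤ k → p ≤ k → q ≤ k → i ≠ p → i ≠ q → p ≠ q → a ≠ b →
      (∀ j ≤ k, (B j).count a = if j = i ∨ j = p then 1 else 0) →
      (∀ j ≤ k, (B j).count b = if j = i ∨ j = q then 1 else 0) →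
      cb (B i) a b = 1 → cb (B' i) a b = 0 →
        (i < p → i < q → EdIn n (RR θ) Ed.s1) ∧
        ((p < i ∧ i < q) ∨ (q < i ∧ i < p) → EdIn n (RR θ) Ed.s2) ∧
        (p < i → q < i → EdIn n (RR θ) Ed.s3)

end Pool.Agent.MWGI
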