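import Pool.Agent.MWGI.Defs
import Pool.Agent.MWHP.StmtsN

/-!
# Block MWGI: families, active pairs, tasks (definitions)
-/

namespace Pool.Agent.MWGI

open Pool.Agent.Helper14_MV Pool.Agent.Helper2_MV Pool.Agent.MVO Pool.Agent.MWL Pool.Agent.MWS
  Pool.Agent.MWH

/-- families of the same types in normal form -/
structure Fam (n k : ℕ) (B B' : ℕ → List ℕ) : Prop where
  ok : OkB k B
  ok' : OkB k B'
  eq : MWHP.EqT n k B B'
  gi : ∀ c, NS k c → Gi k (ty B c)

/-- the active pair `(x, a)`: the light letter `a` stands in the blocks `i` and `p`, the heavy letter `x`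
stands in block `i` and not in block `p` -/
structure Act (k : ℕ) (B : ℕ → List ℕ) (i p x a : ℕ) : Prop where
  ik : i ≤ k
  pk : p ≤ k
  ip : i ≠ p
  nx : NS k x
  na : NS k a
  xa : x ≠ a
  hx : ∀ j ≤ k, (B j).count x = 0 ∨ 2 ≤ (B j).count x
  xi : 2 ≤ (B i).count x
  xp : x ∉ B p
  ai : (B i).count a = 1
  ap : (B p).count a = 1
  az : ∀ j ≤ k, j ≠ i → j ≠ p → a ∉ B j

/-- the blocks of `x` -/
def Zx (B : ℕ → List ℕ) (x : ℕ) : ℕ → Bool := fun j => decide (x ∈ B j)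

/-- `M` is described by edges which are necessary for `asm k B ~ asm k B'` -/
def Tsk (n : ℕ) (β : FIC) (k : ℕ) (B B' : ℕ → List ℕ) (M : FIC → Prop) : Prop :=
  ∃ L : List Ed, (∀ e ∈ L, Good n e) ∧ ∀ θ : FIC, β ≤ θ → NC2 θ →
    (RR θ (asm k B) (asm k B') → ∀ e ∈ L, EdIn n (RR θ) e) ∧
      ((∀ e ∈ L, EdIn n (RR θ) e) → M θ)

end Pool.Agent.MWGI
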