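import Pool.Agent.MWGI.StmtsC
import Pool.Agent.MWGI.StmtsN

/-!
# Block MWGI, part E: the edges of two words of the same types (rows)

Every row: file `Pool/Agent/HelperNN_MWGI/XXX.lean`, import `Pool.Agent.MWGI.StmtsE`, namespace
`Pool.Agent.MWGI.HNN`, theorem `xxx (hypotheses = rows in uses, in this order) : XxxStmt`.
`C` below is the family `fun j => if j < i then B' j else B j`: `pre C i = pre B' i`, `suf C i r = suf B i r`
(`pre_congr`, `suf_congr`), `C i = B i`, and `C` has the types of `B` (`EqT`), so `Act k C i p x a` iff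
`Act k B i p x a`, and `x ∈ C j` iff `x ∈ B j` for `j ≤ k`.
-/

namespace Pool.Agent.MWGI

open Pool.Agent.Helper14_MV Pool.Agent.Helper2_MV Pool.Agent.MVO Pool.Agent.MWL Pool.Agent.MWS
  Pool.Agent.MWH

/-- the gap of `x` between `a` and `b` -/
def gap (n : ℕ) (l : List ℕ) (a b : ℕ) : ℕ → ℕ := fun x => 2 * n + (n - 1) * cb l x a + cb l x b

/-- the state of `(x, a)` on the right side may be changed as in block `i` -/
def MRe (n : ℕ) (θ : FIC) (k : ℕ) (B B' : ℕ → List ℕ) (i x a : ℕ) : Prop :=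
  ¬ (cb (B i) x a = (B i).count x ↔ cb (B' i) x a = (B' i).count x) →
    ∀ H : List ℕ, a ∉ H → REo n k θ H (pre B' i) (suf B i (k - i)) x a

/-- the state of `(x, a)` on the left side may be changed as in block `i` -/
def MLe (n : ℕ) (θ : FIC) (k : ℕ) (B B' : ℕ → List ℕ) (i x a : ℕ) : Prop :=
  ¬ (cb (B i) x a = 0 ↔ cb (B' i) x a = 0) →
    ∀ H : List ℕ, a ∉ H → LEo n k θ H (pre B' i) (suf B i (k - i)) x a

/-- the label of `(x, a)` may be changed as in block `i` -/
def MCr (n : ℕ) (θ : FIC) (k : ℕ) (B B' : ℕ → List ℕ) (i x a : ℕ) : Prop :=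
  ∀ H : List ℕ, a ∉ H →
    CRo n k θ H (pre B' i) (suf B i (k - i)) x a (cb (B i) x a) (cb (B' i) x a)

/-- `a` and `b` may be exchanged as in block `i` -/
def MSw (n : ℕ) (θ : FIC) (k : ℕ) (B B' : ℕ → List ℕ) (i a b : ℕ) : Prop :=
  ∀ H : List ℕ, a ∉ H → b ∉ H → SWo n k θ H (pre B' i) (suf B i (k - i)) a b (gap n (B i) a b)

/-- **TYP** (uses nothing).  The types of a heavy and of a light letter of block `i`.
PROOF.  `Fam.gi`.  Entry `≥ 2`: not `LL2` (its entries are `≤ 1`), so all entries are `0` or `≥ 2`.  Entry `1`: not `Hvy`, so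
`LL2 k (ty B a) u v`, `i = u` or `i = v`; `p` is the other one.  `x ∈ B i`, `a ∈ B i` give `NS k x`, `NS k a` (`OkB.ok`). -/
def TypStmt : Prop :=
  ∀ (n k : ℕ) (B B' : ℕ → List ℕ), Fam n k B B' → ∀ i ≤ k,
    (∀ x, 2 ≤ (B i).count x → NS k x ∧ ∀ j ≤ k, (B j).count x = 0 ∨ 2 ≤ (B j).count x) ∧
    (∀ a, (B i).count a = 1 → NS k a ∧ ∃ p ≤ k, p ≠ i ∧
      ∀ j ≤ k, (B j).count a = if j = i ∨ j = p then 1 else 0)

/-- **HYB** (uses nothing).  The hybrid family.
PROOF.  As described at the top.  `OkB k C`: letters of the blocks are no separators; the total of a letter in `C`: by `EqT`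
every entry of `C` is equal to the entry of `B` or both are `≥ 2`; if all entries are equal the total is that of `B`,
otherwise one entry is `≥ 2`. -/
def HybStmt : Prop :=
  ∀ (n k : ℕ) (B B' : ℕ → List ℕ), Fam n k B B' → ∀ i ≤ k,
    ∃ C : ℕ → List ℕ, OkB k C ∧ C i = B i ∧ pre C i = pre B' i ∧
      suf C i (k - i) = suf B i (k - i) ∧ (∀ j ≤ k, ∀ c, (c ∈ C j ↔ c ∈ B j)) ∧
      (∀ p x a, Act k B i p x a → Act k C i p x a)

/-- **RTZ0** (uses nothing).  Empty blocks can be deleted from canonical words.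
PROOF.  Induction on the number of the blocks `j ≤ k`, `j ≠ i, p`, with `Z j = false`.  If there is none: `k, i, p` (`wz` with `Z` and with `Za`
agree on the blocks `≤ k`).  Otherwise delete the block `j` (and one separator next to it): `k' = k - 1` (`k ≥ 2`), the blocks
behind `j` move down by `1`.  `→`: `rr_push` (or substitute one separator by the empty word and rename).  `←`: `0 < j`: substitute the
separator before the block `j` (behind, if `j = 0` there is nothing before: multiply from the left by a separator). -/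
def Rtz0Stmt : Prop :=
  ∀ (n k i p : ℕ) (Z : ℕ → Bool), i ≤ k → p ≤ k → i ≠ p →
    ∃ k' i' p' : ℕ, i' ≤ k' ∧ p' ≤ k' ∧ i' ≠ p' ∧ ∀ (θ : FIC) (u v u' v' : ℕ),
      (Wz n k i p Z u v u' v' (RR θ) ↔ Wz n k' i' p' Za u v u' v' (RR θ))

/-- **TRE** (uses TYP, HYB, RTZ0, NRW, NWR, MWR, CSB, MV1).  The right state.
PROOF.  If the two states agree: `L = []`.  TYP: `p`.  `x ∈ B p`: `L = []`: HYB: `C`; CSB (`j = p`), MV1.  `x ∉ B p`: `Act k B i p x a`;
`Z := Zx B x`; RTZ0: `k', i', p'`; `L = [Ed.re k' i' p']`.  Necessity: NRW: one of the two words has `v = 0` (the state all `x`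
before `a`: `cb = count`), the other `v' ≥ 1` (`cb ≤ count`): NWR (or after symmetry): `Re n k i p Z (RR θ)`, which is a `Wz`: RTZ0
gives the edge.  Sufficiency: RTZ0 backwards, HYB, MWR. -/
def TreStmt : Prop :=
  ∀ (n : ℕ) (β : FIC), BI n (RR β) → ∀ (k : ℕ) (B B' : ℕ → List ℕ), Fam n k B B' →
    ∀ i x a, i ≤ k → x ≠ a → 2 ≤ (B i).count x → (B i).count a = 1 →
      Tsk n β k B B' (fun θ => MRe n θ k B B' i x a)

/-- **TLE** (uses TYP, HYB, RTZ0, NRW, NWL, MWL, CSB, MV2).  The left state (as TRE, `L = [Ed.le k' i' p']`; in the common block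
case `CrS` gives `CrW`). -/
def TleStmt : Prop :=
  ∀ (n : ℕ) (β : FIC), BI n (RR β) → ∀ (k : ℕ) (B B' : ℕ → List ℕ), Fam n k B B' →
    ∀ i x a, i ≤ k → x ≠ a → 2 ≤ (B i).count x → (B i).count a = 1 →
      Tsk n β k B B' (fun θ => MLe n θ k B B' i x a)

/-- **TCR** (uses TYP, HYB, RTZ0, NRW, NWD, DZA, MWD, CRM, CSB, MV3).  The label.
PROOF.  `x ∈ B p`: `L = []`, CSB, MV3.  `x ∉ B p`: `s = cb (B i) x a`, `s' = cb (B' i) x a`, `d = s + (n-1) s'`, `Z := Zx B x`, RTZ0;
`L = n.primeFactors.toList.map (fun q => Ed.dz k' i' p' (d * (n / q ^ n.factorization q)))` (`Good`: `Nat.ordProj_dvd`).  Necessity: NRW, NWD: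
`Dz n k i p d Z` (the totals are congruent mod `n`: `EqT`), DZA (first part): all multiples of `d`, RTZ0.  Sufficiency: RTZ0, DZA
(second part): `Dz n k i p d Z (RR θ)`; HYB, MWD (`s ≡ s' + d`). -/
def TcrStmt : Prop :=
  ∀ (n : ℕ) (β : FIC), BI n (RR β) → ∀ (k : ℕ) (B B' : ℕ → List ℕ), Fam n k B B' →
    ∀ i x a, i ≤ k → x ≠ a → 2 ≤ (B i).count x → (B i).count a = 1 →
      Tsk n β k B B' (fun θ => MCr n θ k B B' i x a)

/-- **TSW** (uses TYP, HYB, NSS, SWF, VEC, VER, MSW, KSS, SQ2, SW0, MV3).  Exchange of two light letters.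
PROOF.  TYP: `a` has the blocks `i`, `p`, `b` the blocks `i`, `q`.  (1) `p = q`: `L = []`: HYB, SWF (`j = p`): `EXo a b 1` or `EXo b a 1`: VEC resp. VER:
`SWx a b 1`; MSW with `c = 1` (third alternative: `g x ≡ g x * 1`).  (2) `p ≠ q`, `i < p`, `i < q`: `L = [Ed.s1]`; NSS (1).  Sufficiency: KSS (1): SQ2:
`[a, b]` or `[b, a]` is a sublist of `suf`: `ADo a b`; SW0: `SWx a b n`; `a ∈ suf` (block `p`): `CrW x a`, MV3: `CRo x a` for all labels; MSW.
(3) `p < i < q` or `q < i < p`: `L = [Ed.s2]`, NSS (2), KSS (2): `ADo`; the one of `a`, `b` which is in `suf` has `CrV`, MV3: `CRo` for all `x`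
(first or second alternative of MSW).  (4) `p < i`, `q < i`: `L = [Ed.s3]`, NSS (3), KSS (3) with `pre B' i = pre C i`, SQ2. -/
def TswStmt : Prop :=
  ∀ (n : ℕ) (β : FIC), BI n (RR β) → ∀ (k : ℕ) (B B' : ℕ → List ℕ), Fam n k B B' →
    ∀ i a b, i ≤ k → a ≠ b → (B i).count a = 1 → (B i).count b = 1 → cb (B i) a b = 1 →
      cb (B' i) a b = 0 → Tsk n β k B B' (fun θ => MSw n θ k B B' i a b)

/-! ### assembly -/

/-- **DTT** (uses BBL).  Block by block.
PROOF.  As the row DTT of MWGR: `C t := fun j => if j < t then B' j else B j`; `asm k B ~ asm k (C t)` by induction on `t ≤ k + 1`; step at `i = t`: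
`asm k (C t) = pr ++ (B i ++ s)`, `asm k (C (t+1)) = pr ++ (B' i ++ s)`, `pr = pre B' i`, `s = suf B i (k-i)`.  BBL for `θ`, `θ` with
`H := (B i).dedup.filter (2 ≤ (B i).count ·)`.  `Ok1` for `B i`: `a ∉ H`, `a ∈ B i`: count `1`, `NS k a`; `a` has one more block `p` (`LL2`), so
`a ∈ pr` or `a ∈ s`; `mu`: a letter `z` with `NS k z` of `pr ++ s` is a letter of a block of `C t`, and `OkB k (C t)` (see HYB) gives the
multiplicity in the word (`count_asm`).  `Ok1` for `B' i`: the same for `C (t+1)`.  The conditions of BBL are the hypotheses. -/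
def DttStmt : Prop :=
  ∀ (n k : ℕ) (θ : FIC) (B B' : ℕ → List ℕ), BI n (RR θ) → Fam n k B B' →
    (∀ i ≤ k, ∀ x a, x ≠ a → 2 ≤ (B i).count x → (B i).count a = 1 →
      MRe n θ k B B' i x a ∧ MLe n θ k B B' i x a ∧ MCr n θ k B B' i x a) →
    (∀ i ≤ k, ∀ a b, a ≠ b → (B i).count a = 1 → (B i).count b = 1 → cb (B i) a b = 1 →
      cb (B' i) a b = 0 → MSw n θ k B B' i a b) →
      RR θ (asm k B) (asm k B')

/-- **TSF** (uses nothing).  Finitely many tasks (twin of MWGR TSF).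
PROOF.  Induction on `Q`: append the lists. -/
def TsfStmt : Prop :=
  ∀ (n : ℕ) (β : FIC) (k : ℕ) (B B' : ℕ → List ℕ) (Q : List (ℕ × ℕ × ℕ))
    (M : ℕ × ℕ × ℕ → FIC → Prop), (∀ q ∈ Q, Tsk n β k B B' (M q)) →
      Tsk n β k B B' (fun θ => ∀ q ∈ Q, M q θ)

/-- **EWI** (uses TRE, TLE, TCR, TSW, TSF, DTT, JPE).  The edges (`EwiStmt` is in `MWGI/Defs.lean`).  As the row EWR of MWGR:
all triples `(i, x, a)` with `i ≤ k` and letters `x`, `a` of `B i`; the edges are join prime by JPE; `BI n (RR θ)` for `θ ≥ β`. -/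
def EwiRow : Prop := EwiStmt

end Pool.Agent.MWGI
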